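import Pool.Agent.W254.LF.Stm

set_option autoImplicit false

/-!
# LF-PLC: embedding of the splitting field into a place
-/

namespace Pool.Agent.W605.LF

open Polynomial

section basic

variable {C E : Type} [Field C] [CharZero C] [Field E] [Algebra C E]

theorem aeval_inj (D : Derivation C E E) (t : E) (ht : D t = 1) :
    Function.Injective (aeval t : C[X] →ₐ[C] E) := by
  rw [injective_iff_map_eq_zero]
  have key : ∀ n : ℕ, ∀ f : C[X], f.natDegree ≤ n → aeval t f = 0 → f = 0 := by
    intro n
    induction n with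
    | zero =>
      intro f hf h0
      rw [Polynomial.eq_C_of_natDegree_le_zero hf] at h0 ⊢
      rw [aeval_C] at h0
      rw [(algebraMap C E).injective (h0.trans (map_zero _).symm), map_zero]
    | succ n ih =>
      intro f hf h0
      have h1 : aeval t (derivative f) = 0 := by
        have h2 := D.map_aeval f t
        rw [h0, map_zero, ht, smul_eq_mul, mul_one] at h2
        exact h2.symm
      have h3 : derivative f = 0 := by
        apply ih _ _ h1
        have := Polynomial.natDegree_derivative_le f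
        omega
      have h4 := Polynomial.derivative_eq_zero.1 h3
      rw [Polynomial.eq_C_of_natDegree_eq_zero h4] at h0 ⊢
      rw [aeval_C] at h0
      rw [(algebraMap C E).injective (h0.trans (map_zero _).symm), map_zero]
  exact fun f h => key f.natDegree f le_rfl h

/-- the product -/
noncomputable def Pl {m : ℕ} (α : Fin m → C) : C[X] := ∏ i, (X - Polynomial.C (α i))

omit [CharZero C] in
theorem aeval_Pl {m : ℕ} (α : Fin m → C) (y : E) :
    aeval y (Pl α) = ∏ i, (y - algebraMap C E (α i)) := by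
  simp [Pl]

omit [CharZero C] in
/-- the derivative of a root -/
theorem deriv_root (D : Derivation C E E) (t : E) (ht : D t = 1) {m : ℕ} (α : Fin m → C) (y : E)
    (hy : (y - t) * aeval y (Pl α) = 1) :
    (y - t) * aeval y (derivative (Pl α)) + aeval y (Pl α) ≠ 0 ∧
    D y = aeval y (Pl α) / ((y - t) * aeval y (derivative (Pl α)) + aeval y (Pl α)) := by
  have h1 : D ((y - t) * aeval y (Pl α)) = 0 := by rw [hy, Derivation.map_one_eq_zero]
  rw [Derivation.leibniz, D.map_aeval, map_sub, ht] at h1
  simp only [smul_eq_mul] at h1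
  have h2 : D y * ((y - t) * aeval y (derivative (Pl α)) + aeval y (Pl α)) = aeval y (Pl α) := by
    linear_combination h1
  have h3 : aeval y (Pl α) ≠ 0 := by
    intro h
    rw [h, mul_zero] at hy
    exact zero_ne_one hy
  have h4 : (y - t) * aeval y (derivative (Pl α)) + aeval y (Pl α) ≠ 0 := by
    intro h
    rw [h, mul_zero] at h2
    exact h3 h2.symm
  exact ⟨h4, by rw [eq_div_iff h4, h2]⟩

end basic

/-- a monic polynomial with enough distinct roots -/
theorem eq_prod_of_roots {L : Type} [Field L] {n : ℕ} (F : L[X]) (hF : F.Monic)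
    (hd : F.natDegree = n) (X' : Fin n → L) (hX : Function.Injective X')
    (h : ∀ j, F.eval (X' j) = 0) : F = ∏ j, (X - Polynomial.C (X' j)) := by
  have h1 : ∏ y, (X - Polynomial.C (X' y)) ∣ F := by
    apply Finset.prod_dvd_of_coprime
    · intro a _ b _ hab
      exact Polynomial.pairwise_coprime_X_sub_C hX hab
    · intro a _
      exact Polynomial.dvd_iff_isRoot.2 (h a)
  have h2 : (∏ y, (X - Polynomial.C (X' y))).Monic :=
    Polynomial.monic_prod_of_monic _ _ fun a _ => Polynomial.monic_X_sub_C _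
  have h3 : (∏ y, (X - Polynomial.C (X' y))).natDegree = n := by
    rw [Polynomial.natDegree_prod_of_monic _ _ fun a _ => Polynomial.monic_X_sub_C _]
    simp
  exact Polynomial.eq_of_monic_of_dvd_of_natDegree_le h2 hF h1 (by rw [h3, hd])

theorem t_PLC : Pool.Agent.W254.LF.S_PLC := by
  intro C E L _ _ _ _ _ _ DE DL tE tL hE hL m α x X' hx hX hxe hXe
  have hxP : ∀ j, (x j - tE) * aeval (x j) (Pl α) = 1 := fun j => by rw [aeval_Pl]; exact hxe j
  have hXP : ∀ j, (X' j - tL) * aeval (X' j) (Pl α) = 1 := fun j => by rw [aeval_Pl]; exact hXe j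
  let K := FractionRing C[X]
  let iE : K →ₐ[C] E := IsFractionRing.liftAlgHom (g := aeval tE) (aeval_inj DE tE hE)
  let iL : K →ₐ[C] L := IsFractionRing.liftAlgHom (g := aeval tL) (aeval_inj DL tL hL)
  have hiE : ∀ f : C[X], iE (algebraMap C[X] K f) = aeval tE f := fun f =>
    IsFractionRing.lift_algebraMap (aeval_inj DE tE hE) f
  have hiL : ∀ f : C[X], iL (algebraMap C[X] K f) = aeval tL f := fun f =>
    IsFractionRing.lift_algebraMap (aeval_inj DL tL hL) f
  let _ : Algebra K E := iE.toRingHom.toAlgebra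
  let _ : Algebra K L := iL.toRingHom.toAlgebra
  have aE : ∀ z : K, algebraMap K E z = iE z := fun _ => rfl
  have aL : ∀ z : K, algebraMap K L z = iL z := fun _ => rfl
  have : IsScalarTower C K E := IsScalarTower.of_algebraMap_eq fun c => (iE.commutes c).symm
  have : IsScalarTower C K L := IsScalarTower.of_algebraMap_eq fun c => (iL.commutes c).symm
  -- the constants
  have base : ∀ z : K, ∃ z' : K, DE (algebraMap K E z) = algebraMap K E z' ∧
      DL (algebraMap K L z) = algebraMap K L z' := by
    intro z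
    obtain ⟨a, b, hb, rfl⟩ := IsFractionRing.div_surjective C[X] z
    have dE : ∀ f : C[X], DE (aeval tE f) = aeval tE (derivative f) := by
      intro f; rw [DE.map_aeval, hE, smul_eq_mul, mul_one]
    have dL : ∀ f : C[X], DL (aeval tL f) = aeval tL (derivative f) := by
      intro f; rw [DL.map_aeval, hL, smul_eq_mul, mul_one]
    refine ⟨(algebraMap C[X] K b)⁻¹ ^ 2 * (algebraMap C[X] K b * algebraMap C[X] K (derivative a) -
      algebraMap C[X] K a * algebraMap C[X] K (derivative b)), ?_, ?_⟩
    · simp only [aE, map_div₀, hiE, Derivation.leibniz_div, dE, smul_eq_mul, map_mul, map_sub,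
        map_pow, map_inv₀]
    · simp only [aL, map_div₀, hiL, Derivation.leibniz_div, dL, smul_eq_mul, map_mul, map_sub,
        map_pow, map_inv₀]
  -- the polynomial
  let T : K := algebraMap C[X] K X
  have hTE : algebraMap K E T = tE := by rw [aE, hiE, aeval_X]
  have hTL : algebraMap K L T = tL := by rw [aL, hiL, aeval_X]
  let Q : K[X] := (X - Polynomial.C T) * (Pl α).map (algebraMap C K) - 1
  have hPm : (Pl α).Monic := Polynomial.monic_prod_of_monic _ _ fun a _ => Polynomial.monic_X_sub_C _
  have hPd : (Pl α).natDegree = m := by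
    unfold Pl
    rw [Polynomial.natDegree_prod_of_monic _ _ fun a _ => Polynomial.monic_X_sub_C _]
    simp
  have hQ1 : ((X - Polynomial.C T) * (Pl α).map (algebraMap C K)).Monic :=
    (Polynomial.monic_X_sub_C T).mul (hPm.map _)
  have hQ1d : ((X - Polynomial.C T) * (Pl α).map (algebraMap C K)).natDegree = m + 1 := by
    rw [(Polynomial.monic_X_sub_C T).natDegree_mul (hPm.map _), natDegree_X_sub_C,
      hPm.natDegree_map, hPd, add_comm]
  have hdeg1 : (1 : K[X]).degree < ((X - Polynomial.C T) * (Pl α).map (algebraMap C K)).degree := by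
    rw [degree_one, degree_eq_natDegree hQ1.ne_zero, hQ1d]
    exact_mod_cast Nat.succ_pos m
  have hQm : Q.Monic := hQ1.sub_of_left hdeg1
  have hQd : Q.natDegree = m + 1 := by
    rw [natDegree_eq_of_degree_eq (degree_sub_eq_left_of_degree_lt hdeg1), hQ1d]
  have evE : ∀ y : E, aeval y Q = (y - tE) * aeval y (Pl α) - 1 := by
    intro y
    simp only [Q, map_sub, map_mul, aeval_X, aeval_C, hTE, map_one, aeval_map_algebraMap]
  have evL : ∀ y : L, aeval y Q = (y - tL) * aeval y (Pl α) - 1 := by
    intro y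
    simp only [Q, map_sub, map_mul, aeval_X, aeval_C, hTL, map_one, aeval_map_algebraMap]
  have hQL : Q.map (algebraMap K L) = ∏ j, (X - Polynomial.C (X' j)) := by
    apply eq_prod_of_roots _ (hQm.map _) (by rw [hQm.natDegree_map, hQd]) X' hX
    intro j
    rw [eval_map_algebraMap, evL, hXP, sub_self]
  have hQLs : (Q.map (algebraMap K L)).Splits := by
    rw [hQL]
    exact Splits.prod fun j _ => Splits.X_sub_C _
  have hint : ∀ s ∈ Set.range x, IsIntegral K s ∧ ((minpoly K s).map (algebraMap K L)).Splits := by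
    rintro _ ⟨j, rfl⟩
    have h0 : aeval (x j) Q = 0 := by rw [evE, hxP, sub_self]
    refine ⟨⟨Q, hQm, by rwa [← aeval_def]⟩, ?_⟩
    exact hQLs.of_dvd (hQm.map _).ne_zero (Polynomial.map_dvd _ (minpoly.dvd K _ h0))
  obtain ⟨ψ⟩ := IntermediateField.nonempty_algHom_adjoin_of_splits hint
  set F0 := IntermediateField.adjoin K (Set.range x) with hF0
  have hxm : ∀ j, x j ∈ F0 := fun j => IntermediateField.subset_adjoin K _ ⟨j, rfl⟩
  -- images of the roots
  have hroot : ∀ j, ∃ k, ψ ⟨x j, hxm j⟩ = X' k := by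
    intro j
    have h0 : aeval (ψ ⟨x j, hxm j⟩) Q = 0 := by
      rw [aeval_algHom_apply]
      have h1 : aeval (⟨x j, hxm j⟩ : F0) Q = 0 := by
        apply (algebraMap F0 E).injective
        rw [map_zero, ← aeval_algebraMap_apply]
        change aeval (x j) Q = 0
        rw [evE, hxP, sub_self]
      rw [h1, map_zero]
    rw [← eval_map_algebraMap, hQL, eval_prod, Finset.prod_eq_zero_iff] at h0
    obtain ⟨k, _, hk⟩ := h0
    exact ⟨k, by simpa [sub_eq_zero] using hk⟩
  choose σ hσ using hroot
  have hσi : Function.Injective σ := by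
    intro i j hij
    have h1 : ψ ⟨x i, hxm i⟩ = ψ ⟨x j, hxm j⟩ := by rw [hσ, hσ, hij]
    have h2 := ψ.toRingHom.injective h1
    exact hx (congrArg Subtype.val h2)
  -- closure
  let P' : K[X] := (Pl α).map (algebraMap C K)
  have hP'E : ∀ y : E, aeval y P' = aeval y (Pl α) := fun y => aeval_map_algebraMap K y (Pl α)
  have hP'L : ∀ y : L, aeval y P' = aeval y (Pl α) := fun y => aeval_map_algebraMap K y (Pl α)
  have hP''E : ∀ y : E, aeval y (derivative P') = aeval y (derivative (Pl α)) := fun y => by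
    rw [show derivative P' = (derivative (Pl α)).map (algebraMap C K) from derivative_map _ _,
      aeval_map_algebraMap]
  have hP''L : ∀ y : L, aeval y (derivative P') = aeval y (derivative (Pl α)) := fun y => by
    rw [show derivative P' = (derivative (Pl α)).map (algebraMap C K) from derivative_map _ _,
      aeval_map_algebraMap]
  have key : ∀ y (hy : y ∈ F0), ∃ h : DE y ∈ F0, ψ ⟨DE y, h⟩ = DL (ψ ⟨y, hy⟩) := by
    intro y hy
    induction hy using IntermediateField.adjoin_induction with
    | mem y hy =>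
      obtain ⟨j, rfl⟩ := hy
      obtain ⟨hd, he⟩ := deriv_root DE tE hE α (x j) (hxP j)
      obtain ⟨hd', he'⟩ := deriv_root DL tL hL α (X' (σ j)) (hXP (σ j))
      let xj : F0 := ⟨x j, hxm j⟩
      let q : F0 := aeval xj P' /
        ((xj - algebraMap K F0 T) * aeval xj (derivative P') + aeval xj P')
      have hv : ∀ R : K[X], F0.val (aeval xj R) = aeval (x j) R := fun R => by
        rw [← aeval_algHom_apply]; rfl
      have hw : ∀ R : K[X], ψ (aeval xj R) = aeval (X' (σ j)) R := fun R => by
        rw [← aeval_algHom_apply, hσ j]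
      have hq : F0.val q = DE (x j) := by
        rw [he]
        simp only [q, map_div₀, map_add, map_mul, map_sub, hv, hP'E, hP''E, AlgHom.commutes, hTE]
        rfl
      have hmem : DE (x j) ∈ F0 := hq ▸ q.2
      refine ⟨hmem, ?_⟩
      have e1 : (⟨DE (x j), hmem⟩ : F0) = q := Subtype.ext hq.symm
      rw [e1, hσ j, he']
      simp only [q, map_div₀, map_add, map_mul, map_sub, hw, hP'L, hP''L, AlgHom.commutes, hTL]
      have e2 : ψ xj = X' (σ j) := hσ j
      rw [e2]
    | algebraMap z =>
      obtain ⟨z', h1, h2⟩ := base z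
      have hmem : DE (algebraMap K E z) ∈ F0 := by
        rw [h1]; exact F0.algebraMap_mem z'
      refine ⟨hmem, ?_⟩
      have e1 : (⟨DE (algebraMap K E z), hmem⟩ : F0) = algebraMap K F0 z' := Subtype.ext h1
      have e2 : (⟨algebraMap K E z, F0.algebraMap_mem z⟩ : F0) = algebraMap K F0 z := rfl
      rw [e1, e2, AlgHom.commutes, AlgHom.commutes, h2]
    | add y z hy hz ihy ihz =>
      obtain ⟨h1, h2⟩ := ihy
      obtain ⟨h3, h4⟩ := ihz
      have hmem : DE (y + z) ∈ F0 := by rw [map_add]; exact add_mem h1 h3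
      refine ⟨hmem, ?_⟩
      have e1 : (⟨DE (y + z), hmem⟩ : F0) = ⟨DE y, h1⟩ + ⟨DE z, h3⟩ :=
        Subtype.ext (map_add DE y z)
      have e2 : (⟨y + z, add_mem hy hz⟩ : F0) = ⟨y, hy⟩ + ⟨z, hz⟩ := rfl
      rw [e1, e2, map_add, map_add, map_add, h2, h4]
    | inv y hy ihy =>
      obtain ⟨h1, h2⟩ := ihy
      have e0 : DE y⁻¹ = -y⁻¹ ^ 2 * DE y := by rw [Derivation.leibniz_inv, smul_eq_mul]
      have hmem : DE y⁻¹ ∈ F0 := by
        rw [e0]
        exact mul_mem (neg_mem (pow_mem (inv_mem hy) 2)) h1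
      refine ⟨hmem, ?_⟩
      have e1 : (⟨DE y⁻¹, hmem⟩ : F0) = -(⟨y, hy⟩ : F0)⁻¹ ^ 2 * ⟨DE y, h1⟩ := Subtype.ext e0
      have e2 : (⟨y⁻¹, inv_mem hy⟩ : F0) = (⟨y, hy⟩ : F0)⁻¹ := rfl
      rw [e1, e2, map_inv₀, Derivation.leibniz_inv, map_mul, map_neg, map_pow, map_inv₀, h2,
        smul_eq_mul]
    | mul y z hy hz ihy ihz =>
      obtain ⟨h1, h2⟩ := ihy
      obtain ⟨h3, h4⟩ := ihz
      have e0 : DE (y * z) = y * DE z + z * DE y := by
        rw [Derivation.leibniz, smul_eq_mul, smul_eq_mul]
      have hmem : DE (y * z) ∈ F0 := by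
        rw [e0]; exact add_mem (mul_mem hy h3) (mul_mem hz h1)
      refine ⟨hmem, ?_⟩
      have e1 : (⟨DE (y * z), hmem⟩ : F0) = ⟨y, hy⟩ * ⟨DE z, h3⟩ + ⟨z, hz⟩ * ⟨DE y, h1⟩ :=
        Subtype.ext e0
      have e2 : (⟨y * z, mul_mem hy hz⟩ : F0) = ⟨y, hy⟩ * ⟨z, hz⟩ := rfl
      rw [e1, e2, map_add, map_mul, map_mul, map_mul, Derivation.leibniz, h2, h4, smul_eq_mul,
        smul_eq_mul]
  -- the results
  let F : IntermediateField C E := F0.restrictScalars C
  have hFm : ∀ y : E, y ∈ F → y ∈ F0 := fun y hy => hy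
  have hFm' : ∀ y : E, y ∈ F0 → y ∈ F := fun y hy => hy
  let DF : Derivation C F F := Derivation.mk'
    { toFun := fun f => ⟨DE (f : E), hFm' _ (key f.1 (hFm _ f.2)).1⟩
      map_add' := fun f g => Subtype.ext (map_add DE (f : E) (g : E))
      map_smul' := fun c f => Subtype.ext (DE.map_smul c (f : E)) }
    (fun f g => Subtype.ext (by
      change DE ((f : E) * (g : E)) = (f : E) * DE (g : E) + (g : E) * DE (f : E)
      rw [Derivation.leibniz, smul_eq_mul, smul_eq_mul]))
  let ψF : F →ₐ[C] L :=
    { toFun := fun f => ψ ⟨f.1, hFm _ f.2⟩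
      map_one' := map_one ψ
      map_mul' := fun f g => map_mul ψ ⟨f.1, hFm _ f.2⟩ ⟨g.1, hFm _ g.2⟩
      map_zero' := map_zero ψ
      map_add' := fun f g => map_add ψ ⟨f.1, hFm _ f.2⟩ ⟨g.1, hFm _ g.2⟩
      commutes' := fun c => by
        have e1 := ψ.commutes (algebraMap C K c)
        have e2 : algebraMap K L (algebraMap C K c) = algebraMap C L c :=
          (IsScalarTower.algebraMap_apply C K L c).symm
        rw [e2] at e1
        rw [← e1]
        congr 1
        apply Subtype.ext
        exact IsScalarTower.algebraMap_apply C K E c }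
  refine ⟨F, DF, ψF, fun j => ⟨x j, hFm' _ (hxm j)⟩,
    Equiv.ofBijective σ (Finite.injective_iff_bijective.1 hσi), fun f => rfl, fun j => rfl, ?_, ?_⟩
  · intro f
    exact (key f.1 (hFm _ f.2)).2
  · intro j
    exact hσ j

end Pool.Agent.W605.LF
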